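import Pool.Agent.H.MP_9aa7de.A

set_option autoImplicit false

namespace Pool.Agent.H.MP_160a79_an

open Finset Filter Topology MP_9aa7de

variable {I : Type}

/-- the norming set of the Baernstein type space of a family of finite sets -/
inductive Ad (F : Finset I → Prop) : (I →₀ ℝ) → Prop
  | base (w : I →₀ ℝ) : F w.support → (∀ i, |w i| ≤ 1) → Ad F w
  | comb (w w' : I →₀ ℝ) (a b : ℝ) : Ad F w → Ad F w' → (∀ i, w i = 0 ∨ w' i = 0) →
      a ^ 2 + b ^ 2 ≤ 1 → Ad F (a • w + b • w')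

variable {F : Finset I → Prop}

lemma Ad.bd {w : I →₀ ℝ} (h : Ad F w) (i : I) : |w i| ≤ 1 := by
  induction h with
  | base w _ h => exact h i
  | comb w w' a b _ _ h hab h1 h2 =>
    have ha : |a| ≤ 1 := (sq_le_one_iff_abs_le_one a).1 (by nlinarith [sq_nonneg b])
    have hb : |b| ≤ 1 := (sq_le_one_iff_abs_le_one b).1 (by nlinarith [sq_nonneg a])
    rcases h i with e | e <;> simp only [Finsupp.add_apply, Finsupp.smul_apply, e, smul_eq_mul,
      mul_zero, zero_add, add_zero, abs_mul]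
    · exact mul_le_one₀ hb (abs_nonneg _) h2
    · exact mul_le_one₀ ha (abs_nonneg _) h1

lemma Ad.mul (her : ∀ A B, A ⊆ B → F B → F A) {θ : I → ℝ} (hθ : ∀ i, |θ i| ≤ 1) {w : I →₀ ℝ}
    (h : Ad F w) : Ad F (θ • w) := by
  induction h with
  | base w h1 h2 =>
    refine .base _ (her _ _ (fun i hi => ?_) h1) fun i => ?_
    · rw [Finsupp.mem_support_iff] at hi ⊢
      exact fun e => hi (by rw [sm, e, mul_zero])
    · rw [sm, abs_mul]
      exact mul_le_one₀ (hθ i) (abs_nonneg _) (h2 i)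
  | comb w w' a b _ _ h hab h1 h2 =>
    convert Ad.comb _ _ a b h1 h2 (fun i => (h i).imp (fun e => by rw [sm, e, mul_zero])
      fun e => by rw [sm, e, mul_zero]) hab using 1
    ext i
    simp only [sm, Finsupp.add_apply, Finsupp.smul_apply, smul_eq_mul]
    ring

lemma exG (her : ∀ A B, A ⊆ B → F B → F A) (sg : ∀ i, F {i}) (i0 : I) :
    ∃ (X : Type) (_ : NormedAddCommGroup X) (_ : NormedSpace ℝ X) (_ : CompleteSpace X)
    (x : I → X) (ev : (I →₀ ℝ) →ₗ[ℝ] (X →L[ℝ] ℝ)), Good (Ad F) x ev := by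
  classical
  have s1 : ∀ i, Ad F (Finsupp.single i 1) := fun i =>
    .base _ (her _ _ Finsupp.support_single_subset (sg i)) fun j => by
      rw [Finsupp.single_apply]; split_ifs <;> simp
  obtain ⟨X, _, _, _, x, ev, h1, h2, h3⟩ := exX (Ad F) (fun w hw => hw.bd) s1
  refine ⟨X, _, _, ‹_›, x, ev, h1, h2, h3, fun w hw => hw.bd, s1,
    .base _ (her _ _ (by simp) (sg i0)) (by simp), fun w w' hw h => ?_, Ad.comb⟩
  convert hw.mul her (θ := fun i => w' i / w i) fun i => ?_ using 1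
  · ext i
    rw [sm]
    by_cases e : w i = 0
    · simpa [e] using h i
    · field_simp
  · rw [abs_div]
    exact div_le_one_of_le₀ (h i) (abs_nonneg _)

variable {X : Type} [NormedAddCommGroup X] [NormedSpace ℝ X] {x : I → X}
  {ev : (I →₀ ℝ) →ₗ[ℝ] (X →L[ℝ] ℝ)}

lemma join {p q : I →₀ ℝ} (hp : Ad F p) (hq : Ad F q) (d : ∀ i, p i = 0 ∨ q i = 0) (v : X) :
    ∃ r, Ad F r ∧ (∀ i, p i = 0 → q i = 0 → r i = 0) ∧ ev r v ^ 2 = ev p v ^ 2 + ev q v ^ 2 := by
  set A := ev p v
  set B := ev q v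
  have h0 : 0 ≤ A ^ 2 + B ^ 2 := by positivity
  have h1 := Real.sq_sqrt h0
  refine ⟨_, .comb p q (A / √(A ^ 2 + B ^ 2)) (B / √(A ^ 2 + B ^ 2)) hp hq d ?_,
    fun i a b => by simp [a, b], ?_⟩
  · rw [div_pow, div_pow, ← add_div, h1]
    exact div_self_le_one _
  · simp only [map_add, map_smul, _root_.add_apply, _root_.smul_apply, smul_eq_mul]
    change (A / _ * A + B / _ * B) ^ 2 = _
    rw [div_mul_eq_mul_div, div_mul_eq_mul_div, ← add_div, div_pow, h1, ← sq, ← sq, sq (_ + _),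
      mul_self_div_self]

/-- smallness on the sets extending `A` -/
def Sm [DecidableEq I] (F : Finset I → Prop) (ev : (I →₀ ℝ) →ₗ[ℝ] (X →L[ℝ] ℝ)) (A : Finset I)
    (v : X) (r : ℝ) : Prop :=
  ∀ φ : I →₀ ℝ, F (φ.support ∪ A) → (∀ i, |φ i| ≤ 1) → |ev φ v| ≤ r

variable [DecidableEq I] (G : Good (Ad F) x ev) (her : ∀ A B, A ⊆ B → F B → F A)
  (wf : WellFounded fun B A : Finset I => A ⊂ B ∧ F B)

include G her wf

lemma step1 {f : X →L[ℝ] ℝ} {δ : ℝ} (hf : ∀ A : Finset I, ∃ a : I →₀ ℝ, (∀ i ∈ A, a i = 0) ∧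
    ‖Finsupp.linearCombination ℝ x a‖ ≤ 1 ∧ δ ≤ f (Finsupp.linearCombination ℝ x a))
    (𝒜 : Multiset (Finset I)) : ∀ ε > 0, ∀ A0 : Finset I, ∃ a : I →₀ ℝ, (∀ i ∈ A0, a i = 0) ∧
      ‖Finsupp.linearCombination ℝ x a‖ ≤ 1 ∧ δ ≤ f (Finsupp.linearCombination ℝ x a) ∧
      ∀ A ∈ 𝒜, Sm F ev A (Finsupp.linearCombination ℝ x a) ε := by
  classical
  induction 𝒜 using wf.cutExpand.induction with
  | _ 𝒜 ih =>
  intro ε hε A0
  rcases 𝒜.empty_or_exists_mem with rfl | ⟨A, hA⟩
  · obtain ⟨a, h1, h2, h3⟩ := hf A0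
    exact ⟨a, h1, h2, h3, by simp⟩
  obtain ⟨𝒜, rfl⟩ := Multiset.exists_cons_of_mem hA
  have R : ∀ N : ℕ, ∃ w : I →₀ ℝ, (∀ i ∈ A0 ∪ A, w i = 0) ∧
      ‖Finsupp.linearCombination ℝ x w‖ ≤ N ∧ N * δ ≤ f (Finsupp.linearCombination ℝ x w) ∧
      (∀ B ∈ 𝒜, Sm F ev B (Finsupp.linearCombination ℝ x w) (N * (ε / 2))) ∧
      Sm F ev A (Finsupp.linearCombination ℝ x w) (1 + N * (ε / 2)) := fun N => by
    induction N with
    | zero => exact ⟨0, by simp, by simp, by simp, fun _ _ _ _ _ => by simp, fun _ _ _ => by simp⟩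
    | succ N ihN =>
    obtain ⟨w, w1, w2, w3, w4, w5⟩ := ihN
    have k : ∀ B ∈ (w.support.filter fun s => F (insert s A)).val.map fun s => insert s A,
        A ⊂ B ∧ F B := fun B hB => by
      obtain ⟨s, hs, rfl⟩ := Multiset.mem_map.1 hB
      obtain ⟨s1, s2⟩ := mem_filter.1 hs
      exact ⟨ssubset_insert fun h => Finsupp.mem_support_iff.1 s1 (w1 s (mem_union_right _ h)), s2⟩
    obtain ⟨z, z1, z2, z3, z4⟩ := ih
      (𝒜 + (w.support.filter fun s => F (insert s A)).val.map fun s => insert s A)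
      ⟨(w.support.filter fun s => F (insert s A)).val.map fun s => insert s A, A, k,
        by rw [← Multiset.singleton_add]; abel⟩ (ε / 2) (half_pos hε) (A0 ∪ A)
    · refine ⟨w + z, fun i hi => by simp [w1 i hi, z1 i hi], ?_, ?_, fun B hB φ h1 h2 => ?_,
        fun φ h1 h2 => ?_⟩
      all_goals simp only [map_add, Nat.cast_succ]
      · exact (norm_add_le _ _).trans (add_le_add w2 z2)
      · linarith
      · linarith [abs_add_le (ev φ (Finsupp.linearCombination ℝ x w))
          (ev φ (Finsupp.linearCombination ℝ x z)), w4 B hB φ h1 h2,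
          z4 B (Multiset.mem_add.2 (Or.inl hB)) φ h1 h2]
      · by_cases h : ∃ s ∈ w.support, s ∈ φ.support
        · obtain ⟨s, s1, s2⟩ := h
          have h3 : insert s A ⊆ φ.support ∪ A :=
            insert_subset (mem_union_left _ s2) subset_union_right
          have h4 := z4 (insert s A) (Multiset.mem_add.2 (Or.inr (Multiset.mem_map_of_mem _
            (mem_filter.2 ⟨s1, her _ _ h3 h1⟩)))) φ
            (her _ _ (union_subset subset_union_left h3) h1) h2
          linarith [abs_add_le (ev φ (Finsupp.linearCombination ℝ x w))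
            (ev φ (Finsupp.linearCombination ℝ x z)), w5 φ h1 h2]
        · push Not at h
          rw [G.evT φ w, sum_eq_zero fun i hi => by
            rw [Finsupp.notMem_support_iff.1 (h i hi), mul_zero], zero_add]
          have := (G.le (.base φ (her _ _ subset_union_left h1) h2) _).trans z2
          have : 0 ≤ (N + 1 : ℝ) * (ε / 2) := by positivity
          linarith
  obtain ⟨N, hN⟩ := exists_nat_gt (2 / ε)
  have N0 : (0 : ℝ) < N := lt_trans (by positivity) hN
  obtain ⟨w, w1, w2, w3, w4, w5⟩ := R N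
  rw [div_lt_iff₀ hε] at hN
  refine ⟨(N : ℝ)⁻¹ • w, fun i hi => by simp [w1 i (mem_union_left _ hi)], ?_, ?_,
    fun B hB φ h1 h2 => ?_⟩
  all_goals simp only [map_smul, smul_eq_mul, norm_smul, abs_mul, norm_inv, abs_inv,
    Real.norm_eq_abs, abs_of_pos N0]
  · rwa [inv_mul_le_iff₀ N0, mul_one]
  · rwa [le_inv_mul_iff₀ N0]
  · rw [inv_mul_le_iff₀ N0]
    rcases Multiset.mem_cons.1 hB with rfl | hB
    · linarith [w5 φ h1 h2]
    · nlinarith [w4 B hB φ h1 h2]

omit wf her in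
lemma est (w : I →₀ ℝ) (z : X) {ε : ℝ} (hε : 0 ≤ ε) (hz : Sm F ev ∅ z ε) {φ : I →₀ ℝ}
    (hφ : Ad F φ) : ∃ p q, Ad F p ∧ Ad F q ∧ (∀ i, φ i = 0 → p i = 0) ∧ (∀ i, φ i = 0 → q i = 0) ∧
      ev φ (Finsupp.linearCombination ℝ x w + z) ^ 2 ≤ ev p (Finsupp.linearCombination ℝ x w) ^ 2 +
        ev q z ^ 2 + (w.support.filter fun i => φ i ≠ 0).card *
          (2 * ‖Finsupp.linearCombination ℝ x w‖ * ε + ε ^ 2) := by
  have η0 : 0 ≤ 2 * ‖Finsupp.linearCombination ℝ x w‖ * ε + ε ^ 2 := by positivity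
  induction hφ with
  | base φ h1 h2 =>
    refine ⟨φ, φ, .base φ h1 h2, .base φ h1 h2, fun _ h => h, fun _ h => h, ?_⟩
    rw [map_add]
    rcases (w.support.filter fun i => φ i ≠ 0).eq_empty_or_nonempty with h | h
    · rw [h, G.evT φ w, sum_eq_zero fun i hi => by
        rw [not_not.1 (filter_eq_empty_iff.1 h hi), mul_zero]]
      simp
    · have h3 : (1 : ℝ) ≤ (w.support.filter fun i => φ i ≠ 0).card := by exact_mod_cast h.card_pos
      have h4 := G.le (.base φ h1 h2) (Finsupp.linearCombination ℝ x w)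
      have h5 := hz φ (by simpa using h1) h2
      have h6 : |ev φ (Finsupp.linearCombination ℝ x w) * ev φ z| ≤
          ‖Finsupp.linearCombination ℝ x w‖ * ε := by rw [abs_mul]; gcongr
      nlinarith [le_abs_self (ev φ (Finsupp.linearCombination ℝ x w) * ev φ z), sq_nonneg ε]
  | comb φ ψ a b _ _ h hab h1 h2 =>
    obtain ⟨p, q, p1, q1, p2, q2, e⟩ := h1
    obtain ⟨p', q', p1', q1', p2', q2', e'⟩ := h2
    by_cases ha : a = 0
    · subst ha
      by_cases hb : b = 0
      · subst hb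
        exact ⟨0, 0, G.z, G.z, by simp, by simp, by simp⟩
      · refine ⟨p', q', p1', q1', fun i hi => p2' i (by simpa [hb] using hi),
          fun i hi => q2' i (by simpa [hb] using hi), ?_⟩
        simp only [zero_smul, zero_add, map_smul, _root_.smul_apply, smul_eq_mul,
          Finsupp.smul_apply, ne_eq, mul_eq_zero, hb, false_or, mul_pow] at e' ⊢
        nlinarith [sq_nonneg (ev ψ (Finsupp.linearCombination ℝ x w + z))]
    by_cases hb : b = 0
    · subst hb
      refine ⟨p, q, p1, q1, fun i hi => p2 i (by simpa [ha] using hi),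
        fun i hi => q2 i (by simpa [ha] using hi), ?_⟩
      simp only [zero_smul, add_zero, map_smul, _root_.smul_apply, smul_eq_mul,
        Finsupp.smul_apply, ne_eq, mul_eq_zero, ha, false_or, mul_pow] at e ⊢
      nlinarith [sq_nonneg (ev φ (Finsupp.linearCombination ℝ x w + z))]
    have k : ∀ i, (a • φ + b • ψ) i = 0 ↔ φ i = 0 ∧ ψ i = 0 := fun i => by
      rcases h i with e | e <;> simp [e, ha, hb]
    obtain ⟨r, r1, r2, r3⟩ := join (ev := ev) p1 p1' (fun i => (h i).imp (p2 i) (p2' i))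
      (Finsupp.linearCombination ℝ x w)
    obtain ⟨s, s1, s2, s3⟩ := join (ev := ev) q1 q1' (fun i => (h i).imp (q2 i) (q2' i)) z
    refine ⟨r, s, r1, s1, fun i hi => r2 i (p2 i ((k i).1 hi).1) (p2' i ((k i).1 hi).2),
      fun i hi => s2 i (q2 i ((k i).1 hi).1) (q2' i ((k i).1 hi).2), ?_⟩
    have c : (w.support.filter fun i => (a • φ + b • ψ) i ≠ 0).card =
        (w.support.filter fun i => φ i ≠ 0).card + (w.support.filter fun i => ψ i ≠ 0).card := by
      have d : Disjoint (w.support.filter fun i => φ i ≠ 0) (w.support.filter fun i => ψ i ≠ 0) :=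
        disjoint_filter.2 fun i _ h1 h2 => (h i).elim h1 h2
      rw [← card_union_of_disjoint d, ← filter_or]
      exact congrArg _ (filter_congr fun i _ => by rw [ne_eq, k, not_and_or])
    rw [c, r3, s3, map_add ev, map_smul, map_smul, _root_.add_apply, _root_.smul_apply,
      _root_.smul_apply, smul_eq_mul, smul_eq_mul]
    push_cast
    generalize ev φ (Finsupp.linearCombination ℝ x w + z) = A at *
    generalize ev ψ (Finsupp.linearCombination ℝ x w + z) = B at *
    nlinarith [sq_nonneg (a * B - b * A), mul_nonneg (sub_nonneg.2 hab)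
      (add_nonneg (sq_nonneg A) (sq_nonneg B))]

lemma shrink (f : X →L[ℝ] ℝ) {δ : ℝ} (hδ : 0 < δ) : ∃ A : Finset I, ∀ a : I →₀ ℝ,
    (∀ i ∈ A, a i = 0) → |f (Finsupp.linearCombination ℝ x a)| ≤
      δ * ‖Finsupp.linearCombination ℝ x a‖ := by
  by_contra hn
  push Not at hn
  have hf : ∀ A : Finset I, ∃ a : I →₀ ℝ, (∀ i ∈ A, a i = 0) ∧
      ‖Finsupp.linearCombination ℝ x a‖ ≤ 1 ∧ δ ≤ f (Finsupp.linearCombination ℝ x a) := by
    intro A
    obtain ⟨a, h1, h2⟩ := hn A
    set v := Finsupp.linearCombination ℝ x a with hv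
    have h3 : 0 < |f v| := lt_of_le_of_lt (by positivity) h2
    have h4 := abs_pos.1 h3
    refine ⟨(δ / f v) • a, fun i hi => by simp [h1 i hi], ?_, ?_⟩
    · rw [map_smul, norm_smul, ← hv, Real.norm_eq_abs, abs_div, abs_of_pos hδ, div_mul_eq_mul_div,
        div_le_one h3]
      exact h2.le
    · rw [map_smul, map_smul, ← hv, smul_eq_mul, div_mul_cancel₀ _ h4]
  have R : ∀ N : ℕ, ∃ w : I →₀ ℝ, N * δ ≤ f (Finsupp.linearCombination ℝ x w) ∧
      ‖Finsupp.linearCombination ℝ x w‖ ^ 2 ≤ 2 * N := fun N => by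
    induction N with
    | zero => exact ⟨0, by simp, by simp⟩
    | succ N ih =>
    obtain ⟨w, w1, w2⟩ := ih
    set n := ‖Finsupp.linearCombination ℝ x w‖
    have n0 : 0 ≤ n := norm_nonneg _
    set c : ℝ := (w.support.card : ℝ) with hc
    have c0 : 0 ≤ c := Nat.cast_nonneg _
    set ε := 1 / ((c + 1) * (2 * n + 1))
    have ε0 : 0 < ε := by positivity
    have ε1 : ε * ((c + 1) * (2 * n + 1)) = 1 := by simp only [ε]; field_simp
    obtain ⟨z, -, z2, z3, z4⟩ := step1 G her wf hf {∅} ε ε0 ∅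
    refine ⟨w + z, by rw [map_add, map_add]; push_cast; linarith, ?_⟩
    rw [← Real.le_sqrt (norm_nonneg _) (by positivity), G.h3 _ _ (Real.sqrt_nonneg _)]
    intro φ hφ
    obtain ⟨p, q, p1, q1, -, -, e⟩ := est G w _ ε0.le (z4 ∅ (by simp)) hφ
    refine Real.abs_le_sqrt ?_
    rw [map_add]
    refine e.trans ?_
    have a1 : ev p (Finsupp.linearCombination ℝ x w) ^ 2 ≤ n ^ 2 :=
      sq_le_sq' (neg_le_of_abs_le (G.le p1 _)) (le_of_abs_le (G.le p1 _))
    have a2 : ev q (Finsupp.linearCombination ℝ x z) ^ 2 ≤ 1 :=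
      (sq_le_one_iff_abs_le_one _).2 ((G.le q1 _).trans z2)
    have a3 : ((w.support.filter fun i => φ i ≠ 0).card : ℝ) ≤ c := by
      rw [hc]; exact_mod_cast card_filter_le _ _
    have a4 : ε ≤ 1 := by
      nlinarith [mul_nonneg ε0.le (mul_nonneg c0 n0), mul_nonneg ε0.le c0, mul_nonneg ε0.le n0]
    have a5 : c * (2 * n * ε + ε ^ 2) ≤ 1 := by
      nlinarith [mul_nonneg c0 ε0.le, mul_nonneg (mul_nonneg c0 ε0.le) (sub_nonneg.2 a4),
        mul_nonneg ε0.le n0]
    have a6 := mul_le_mul_of_nonneg_right a3 (show 0 ≤ 2 * n * ε + ε ^ 2 by positivity)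
    push_cast
    linarith
  obtain ⟨N, hN⟩ := exists_nat_gt (2 * ‖f‖ ^ 2 / δ ^ 2)
  have N0 : (0 : ℝ) < N := lt_of_le_of_lt (by positivity) hN
  obtain ⟨w, w1, w2⟩ := R N
  have h1 := w1.trans ((le_abs_self _).trans (f.le_opNorm _))
  have h2 : (N * δ) ^ 2 ≤ ‖f‖ ^ 2 * (2 * N) :=
    (pow_le_pow_left₀ (by positivity) h1 2).trans (by rw [mul_pow]; gcongr)
  rw [div_lt_iff₀ (by positivity)] at hN
  nlinarith

lemma refl [CompleteSpace X] : Function.Surjective (NormedSpace.inclusionInDoubleDual ℝ X) := by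
  intro Φ
  have ne : ∀ φ, Ad F φ → ‖ev φ‖ ≤ 1 := fun φ h =>
    (ev φ).opNorm_le_bound zero_le_one fun v => by simpa using G.le h v
  have hs := G.bc (fun i => Φ (ev (Finsupp.single i 1))) (C := ‖Φ‖) fun B => by
    refine (G.h3 _ _ (norm_nonneg Φ)).2 fun φ hφ => ?_
    have h1 := G.mul (θ := fun i => if i ∈ B then 1 else 0) (fun i => by split_ifs <;> simp) hφ
    have h2 := (Φ.le_opNorm _).trans (mul_le_of_le_one_right (norm_nonneg Φ) (ne _ h1))
    refine le_of_eq_of_le ?_ h2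
    have e : ev ((fun i => if i ∈ B then 1 else 0 : I → ℝ) • φ) =
        ∑ i ∈ B, φ i • ev (Finsupp.single i 1) := by
      ext v
      rw [ev_eq ev (B := B) fun i hi => by simp [sm, hi]]
      simp only [_root_.sum_apply, _root_.smul_apply, smul_eq_mul]
      exact sum_congr rfl fun i hi => by simp [sm, hi]
    rw [e, Real.norm_eq_abs]
    simp [G.h1, mul_comm]
  refine ⟨_, ContinuousLinearMap.ext fun f => tendsto_nhds_unique (f.hasSum hs.hasSum) ?_⟩
  have t : Tendsto (fun B : Finset I => ∑ i ∈ B, f (x i) • ev (Finsupp.single i 1)) atTop (𝓝 f) := by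
    refine Metric.tendsto_atTop.2 fun δ hδ => ?_
    obtain ⟨A, hA⟩ := shrink G her wf f (half_pos hδ)
    refine ⟨A, fun B hB => lt_of_le_of_lt ?_ (half_lt_self hδ)⟩
    rw [dist_comm, dist_eq_norm]
    refine ContinuousLinearMap.opNorm_le_bound _ (half_pos hδ).le fun v => ?_
    refine G.dr.induction_on v (isClosed_le (by fun_prop) (by fun_prop)) fun a => ?_
    have k := hA ((fun i => if i ∈ B then 0 else 1 : I → ℝ) • a) fun i hi => by simp [sm, hB hi]
    have e : ∀ g : X →L[ℝ] ℝ, g (Finsupp.linearCombination ℝ x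
        ((fun i => if i ∈ B then 0 else 1 : I → ℝ) • a)) =
        ∑ i ∈ a.support, (if i ∈ B then 0 else 1) * a i * g (x i) := fun g => by
      rw [Finsupp.linearCombination_apply, Finsupp.sum_of_support_subset _ (s := a.support)
        (fun i hi => by
          rw [Finsupp.mem_support_iff] at hi ⊢
          exact fun h => hi (by rw [sm, h, mul_zero])) _ (by simp)]
      rw [map_sum]
      exact sum_congr rfl fun i _ => by rw [map_smul, sm, smul_eq_mul]
    have n : ‖Finsupp.linearCombination ℝ x ((fun i => if i ∈ B then 0 else 1 : I → ℝ) • a)‖ ≤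
        ‖Finsupp.linearCombination ℝ x a‖ := (G.h3 _ _ (norm_nonneg _)).2 fun φ hφ => by
      refine le_of_eq_of_le ?_ (G.le (G.mul (θ := fun i => if i ∈ B then 0 else 1)
        (fun i => by split_ifs <;> simp) hφ) _)
      rw [e, G.evT]
      exact congrArg _ (sum_congr rfl fun i _ => by rw [G.h1, sm]; ring)
    refine le_of_eq_of_le ?_ (k.trans (by gcongr))
    rw [e, Real.norm_eq_abs]
    congr 1
    simp only [_root_.sub_apply, _root_.sum_apply, _root_.smul_apply, G.evT, smul_eq_mul,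
      mul_sum]
    rw [sum_comm, Finsupp.linearCombination_apply, Finsupp.sum, map_sum, ← sum_sub_distrib]
    refine sum_congr rfl fun i _ => ?_
    simp only [Finsupp.single_apply, map_smul, smul_eq_mul, mul_ite, mul_one, mul_zero, sum_ite_eq']
    split_ifs <;> ring
  refine ((Φ.continuous.tendsto f).comp t).congr fun B => ?_
  simp [mul_comm]

end Pool.Agent.H.MP_160a79_an
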