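import Pool.Agent.H.MP_160a79_an.A

set_option autoImplicit false

namespace Pool.Agent.H.MP_160a79_an

open Finset Filter Topology MP_9aa7de

lemma exW : ∃ (W : Type) (_ : LinearOrder W) (_ : WellFoundedLT W),
    Nonempty W ∧ ∀ f : ℕ → W, ∃ w, ∀ n, f n < w := by
  have h : ∀ s : Set (Ordinal.omega.{0} 1).ToType, s.Countable → ∃ w, ∀ y ∈ s, y < w := by
    intro s hs
    refine not_isCofinal_iff.1 fun h => ?_
    have := Order.cof_le h
    rw [Ordinal.cof_toType, Cardinal.cof_omega_one] at this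
    exact absurd ((Cardinal.countable_iff_lt_aleph_one s).1 hs) (not_lt.2 this)
  refine ⟨(Ordinal.omega.{0} 1).ToType, inferInstance, inferInstance,
    ⟨(h ∅ Set.countable_empty).choose⟩, fun f => ?_⟩
  simpa using h _ (Set.countable_range f)

section fam

variable {W : Type} [LinearOrder W]

/-- the family of finite sets along which allowed ordinals decrease -/
def Fm (B : Finset (ℕ × Finset W)) : Prop :=
  ∃ b : ℕ × Finset W → W, ∀ s ∈ B, ∀ t ∈ B, s ≠ t →
    b s ∈ s.2 ∧ (s.1 < t.1 ∧ b t < b s ∨ t.1 < s.1 ∧ b s < b t)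

lemma Fm.her (A B : Finset (ℕ × Finset W)) (h : A ⊆ B) : Fm B → Fm A :=
  fun ⟨b, hb⟩ => ⟨b, fun s hs t ht => hb s (h hs) t (h ht)⟩

lemma Fm.sg [Nonempty W] (i : ℕ × Finset W) : Fm {i} :=
  ⟨fun _ => Classical.arbitrary W, fun s hs t ht h =>
    (h ((mem_singleton.1 hs).trans (mem_singleton.1 ht).symm)).elim⟩

lemma Fm.wf [WellFoundedLT W] : WellFounded fun B A : Finset (ℕ × Finset W) => A ⊂ B ∧ Fm B := by
  classical
  refine wellFounded_iff_isEmpty_descending_chain.2 ⟨fun ⟨f, hf⟩ => ?_⟩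
  have m : StrictMono f := strictMono_nat_of_lt_succ fun n => (hf n).1
  choose b hb using fun n => (hf n).2
  have ev : ∀ s n, s ∈ f n → ∀ᶠ k in hyperfilter ℕ, s ∈ f k := fun s n h =>
    Nat.hyperfilter_le_atTop ((eventually_ge_atTop n).mono fun k hk => m.monotone hk h)
  have c : ∀ s : {s // ∃ n, s ∈ f n}, ∃ w, ∀ᶠ k in hyperfilter ℕ, b k s = w := fun ⟨s, n, h⟩ => by
    obtain ⟨w, -, hw⟩ := ((hyperfilter ℕ).eventually_exists_mem_iff (is := (s.2 : Set W))
      (P := fun w k => b k s = w) s.2.finite_toSet).1 ((ev s n h).mono fun k hk => by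
        obtain ⟨t, t1, t2⟩ := exists_of_ssubset (hf k).1
        exact ⟨_, (hb k s ((hf k).1.1 hk) t t1 fun e => t2 (e ▸ hk)).1, rfl⟩)
    exact ⟨w, hw⟩
  choose c hc using c
  have k : ∀ s t : {s // ∃ n, s ∈ f n}, s.1 ≠ t.1 →
      s.1.1 < t.1.1 ∧ c t < c s ∨ t.1.1 < s.1.1 ∧ c s < c t := fun s t h => by
    obtain ⟨n, hn⟩ := s.2
    obtain ⟨n', hn'⟩ := t.2
    obtain ⟨k, ⟨k1, k2⟩, k3, k4⟩ := (((ev _ n hn).and (ev _ n' hn')).and ((hc s).and (hc t))).exists
    rw [← k3, ← k4]
    exact (hb k _ ((hf k).1.1 k1) _ ((hf k).1.1 k2) h).2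
  obtain ⟨t, t1, -⟩ := exists_of_ssubset (hf 0).1
  obtain ⟨_, ⟨s, rfl⟩, hs⟩ := (wellFounded_lt (α := W)).has_min (Set.range c) ⟨_, ⟨t, 1, t1⟩, rfl⟩
  have h1 : s.1.1 + 2 ≤ (f (s.1.1 + 2)).card :=
    StrictMono.le_apply (f := fun n => (f n).card) fun _ _ h => card_lt_card (m h)
  have h2 := card_le_card_of_injOn (s := f (s.1.1 + 2)) (t := range (s.1.1 + 1)) Prod.fst
    (fun t ht => by
      by_cases e : s.1 = t
      · simp [← e]
      · rcases k s ⟨t, _, ht⟩ e with h | h
        · exact (hs _ ⟨_, rfl⟩ h.2).elim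
        · simpa using h.1.le)
    fun t ht t' ht' e => by
      by_contra h
      rcases k ⟨t, _, ht⟩ ⟨t', _, ht'⟩ h with h | h
      · exact h.1.ne e
      · exact h.1.ne' e
  simp at h2
  omega

end fam

/-- well-founded averaging schemes -/
inductive Sch (I : Type) : Type
  | stop : Sch I
  | step (a : ℝ) (k : I → Sch I) : Sch I

variable {I X : Type} [NormedAddCommGroup X] [NormedSpace ℝ X] (U : Ultrafilter I) (x : I → X)

/-- most vectors produced by the scheme satisfy the predicate -/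
def Most : Sch I → (X → Prop) → Prop
  | .stop, Q => Q 0
  | .step a k, Q => ∀ᶠ t in U, Most (k t) fun y => Q (a • x t + y)

/-- concatenation -/
def cat : Sch I → (X → Sch I) → Sch I
  | .stop, g => g 0
  | .step a k, g => .step a fun t => cat (k t) fun y => g (a • x t + y)

/-- scaling -/
def scl (c : ℝ) : Sch I → Sch I
  | .stop => .stop
  | .step a k => .step (c * a) fun t => scl c (k t)

/-- rank and mass -/
def Ok {W : Type} [LinearOrder W] (lo : W) : Sch I → W → ℝ → Prop
  | .stop, β, μ => μ = 0 ∧ lo ≤ β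
  | .step a k, β, μ => ∀ᶠ t in U, ∃ γ < β, Ok lo (k t) γ (μ - a)

variable {U x}

lemma Most.mp {τ : Sch I} {P Q : X → Prop} (h : Most U x τ fun y => P y → Q y)
    (h' : Most U x τ P) : Most U x τ Q := by
  induction τ generalizing P Q with
  | stop => exact h h'
  | step a k ih => exact (Eventually.and h h').mono fun t ht => ih t ht.1 ht.2

lemma Most.all (τ : Sch I) {Q : X → Prop} (h : ∀ y, Q y) : Most U x τ Q := by
  induction τ generalizing Q with
  | stop => exact h 0
  | step a k ih => exact .of_forall fun t => ih t fun y => h _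

lemma Most.mono {τ : Sch I} {P Q : X → Prop} (h' : Most U x τ P) (h : ∀ y, P y → Q y) :
    Most U x τ Q := (Most.all τ h).mp h'

lemma Most.and {τ : Sch I} {P Q : X → Prop} (h : Most U x τ P) (h' : Most U x τ Q) :
    Most U x τ fun y => P y ∧ Q y := (h.mono fun _ a b => ⟨a, b⟩).mp h'

lemma Most.not {τ : Sch I} {Q : X → Prop} (h : ¬ Most U x τ Q) : Most U x τ fun y => ¬ Q y := by
  induction τ generalizing Q with
  | stop => exact h
  | step a k ih => exact (Ultrafilter.eventually_not.2 h).mono fun t ht => ih t ht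

lemma Most.ex {τ : Sch I} {Q : X → Prop} (h : Most U x τ Q) : ∃ y, Q y := by
  induction τ generalizing Q with
  | stop => exact ⟨0, h⟩
  | step a k ih =>
    obtain ⟨t, ht⟩ := Eventually.exists h
    obtain ⟨y, hy⟩ := ih t ht
    exact ⟨_, hy⟩

lemma Most.fin {τ : Sch I} {α : Type} (s : Finset α) {Q : α → X → Prop}
    (h : ∀ i ∈ s, Most U x τ (Q i)) : Most U x τ fun y => ∀ i ∈ s, Q i y := by
  classical
  induction s using Finset.induction_on with
  | empty => exact .all _ (by simp)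
  | insert a s _ ih =>
    simpa only [forall_mem_insert] using (h a (mem_insert_self _ _)).and
      (ih fun i hi => h i (mem_insert_of_mem hi))

lemma Most.cat {τ : Sch I} {g : X → Sch I} {Q : X → Prop}
    (h : Most U x τ fun y => Most U x (g y) fun z => Q (y + z)) : Most U x (cat x τ g) Q := by
  induction τ generalizing g Q with
  | stop => simpa [Most, MP_160a79_an.cat] using h
  | step a k ih => exact Eventually.mono h fun t ht => ih t (by simpa [add_assoc] using ht)

lemma Most.scl {τ : Sch I} {c : ℝ} {Q : X → Prop} (h : Most U x τ fun y => Q (c • y)) :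
    Most U x (scl c τ) Q := by
  induction τ generalizing Q with
  | stop => simpa [Most, MP_160a79_an.scl] using h
  | step a k ih => exact Eventually.mono h fun t ht => ih t (by simpa [mul_smul] using ht)

lemma Most.avoid (τ : Sch I) {f : X →L[ℝ] ℝ} (h : ∀ᶠ t in U, f (x t) = 0) :
    Most U x τ fun y => f y = 0 := by
  induction τ with
  | stop => exact map_zero f
  | step a k ih => exact h.mono fun t ht => (ih t).mono fun y hy => by simp [ht, hy]

variable {W : Type} [LinearOrder W]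

lemma Ok.mono {lo β γ : W} {τ : Sch I} {μ : ℝ} (h : Ok U lo τ β μ) (h' : β ≤ γ) :
    Ok U lo τ γ μ := by
  cases τ with
  | stop => exact ⟨h.1, h.2.trans h'⟩
  | step a k => exact Eventually.mono h fun t ⟨δ, h1, h2⟩ => ⟨δ, h1.trans_le h', h2⟩

lemma Ok.cat {lo l β : W} {τ : Sch I} {g : X → Sch I} {μ ν : ℝ} (h : Ok U l τ β μ)
    (h' : ∀ y, Ok U lo (g y) l ν) : Ok U lo (cat x τ g) β (μ + ν) := by
  induction τ generalizing g β μ with
  | stop => simpa [h.1, MP_160a79_an.cat] using (h' 0).mono h.2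
  | step a k ih =>
    exact Eventually.mono h fun t ⟨δ, h1, h2⟩ => ⟨δ, h1, by
      rw [add_sub_right_comm]; exact ih t h2 fun y => h' _⟩

lemma Ok.scl {lo β : W} {τ : Sch I} {μ : ℝ} (c : ℝ) (h : Ok U lo τ β μ) :
    Ok U lo (scl c τ) β (c * μ) := by
  induction τ generalizing β μ with
  | stop => exact ⟨by rw [h.1, mul_zero], h.2⟩
  | step a k ih =>
    exact Eventually.mono h fun t ⟨δ, h1, h2⟩ => ⟨δ, h1, by rw [← mul_sub]; exact ih t h2⟩

lemma wit {U : Ultrafilter (ℕ × Finset W)} (hU : ↑U ≤ (atTop : Filter (ℕ × Finset W)))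
    {x : ℕ × Finset W → X} {ev : (ℕ × Finset W →₀ ℝ) →ₗ[ℝ] (X →L[ℝ] ℝ)} (G : Good (Ad Fm) x ev)
    {lo β : W} {τ : Sch (ℕ × Finset W)} {μ : ℝ} (h : Ok U lo τ β μ) (A : Finset (ℕ × Finset W))
    (b : ℕ × Finset W → W) (h1 : ∀ s ∈ A, b s ∈ s.2 ∧ β < b s) (h2 : ∀ s ∈ A, ∀ t ∈ A, s ≠ t →
      s.1 < t.1 ∧ b t < b s ∨ t.1 < s.1 ∧ b s < b t) :
    Most U x τ fun y => ∃ φ, Ad Fm φ ∧ (∀ s ∈ A, φ s = 1) ∧ ev φ y = μ := by
  classical
  induction τ generalizing β μ A b with
  | stop =>
    refine ⟨Finsupp.onFinset A (fun s => if s ∈ A then 1 else 0) (by simp), .base _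
      (Fm.her _ A Finsupp.support_onFinset_subset ⟨b, fun s hs t ht e =>
        ⟨(h1 s hs).1, h2 s hs t ht e⟩⟩) fun i => ?_, fun s hs => by simp [hs], by simp [h.1]⟩
    simp only [Finsupp.onFinset_apply]
    split_ifs <;> simp
  | step a k ih =>
    refine (Eventually.and h (hU (eventually_ge_atTop (A.sup Prod.fst + 1, {β})))).mono
      fun t ⟨⟨γ, g1, g2⟩, t1, t2⟩ => ?_
    have l : ∀ s ∈ A, s.1 < t.1 := fun s hs => (Nat.lt_succ_of_le (le_sup hs)).trans_le t1
    have e : ∀ s ∈ A, Function.update b t β s = b s := fun s hs =>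
      Function.update_of_ne (fun e => (l s hs).ne (congrArg _ e)) _ _
    refine (ih t g2 (insert t A) (Function.update b t β) ?_ ?_).mono fun y ⟨φ, p1, p2, p3⟩ =>
      ⟨φ, p1, fun s hs => p2 s (mem_insert_of_mem hs), by
        simp [p3, G.h1, p2 t (mem_insert_self _ _)]⟩
    · rw [forall_mem_insert, Function.update_self]
      exact ⟨⟨t2 (mem_singleton_self _), g1⟩, fun s hs => by
        rw [e s hs]; exact ⟨(h1 s hs).1, g1.trans (h1 s hs).2⟩⟩
    · simp only [forall_mem_insert, Function.update_self]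
      refine ⟨⟨fun h => (h rfl).elim, fun s hs _ => .inr ⟨l s hs, ?_⟩⟩, fun s hs =>
        ⟨fun _ => .inl ⟨l s hs, ?_⟩, fun s' hs' h => ?_⟩⟩
      · rw [e s hs]; exact (h1 s hs).2
      · rw [e s hs]; exact (h1 s hs).2
      · rw [e s hs, e s' hs']; exact h2 s hs s' hs' h

end Pool.Agent.H.MP_160a79_an
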