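import Pool.Agent.H.MP_160a79_an.B

set_option autoImplicit false

namespace Pool.Agent.H.MP_160a79_an

open Finset Filter Topology MP_9aa7de

variable {X W : Type} [NormedAddCommGroup X] [NormedSpace ℝ X] [LinearOrder W]

lemma seq {x : ℕ × Finset W → X} {ev : (ℕ × Finset W →₀ ℝ) →ₗ[ℝ] (X →L[ℝ] ℝ)}
    (G : Good (Ad Fm) x ev) (hW : ∀ f : ℕ → W, ∃ w, ∀ n, f n < w) [Nonempty W] {N : X → ℝ}
    (hom : ∀ (c : ℝ) (v : X), N (c • v) = |c| * N v) {a b : ℝ} (ha : 0 < a) (hb : 0 < b)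
    (bd : ∀ v, a * ‖v‖ ≤ N v ∧ N v ≤ b * ‖v‖) :
    ∃ (c : ℝ) (n : ℕ → ℕ) (y : ℕ → X) (f : ℕ → X →L[ℝ] ℝ), 0 < c ∧ StrictMono n ∧
      (∀ i, (∀ v, |f i v| ≤ ‖v‖) ∧ f i (y i) = 1 ∧ |N (y i) - c| ≤ 1 / (n i + 1)) ∧
      ∀ i j, i < j → 2 * c - 2 * (1 / (n i + 1)) < N (y i + y j) ∧ f i (y j) = 0 := by
  classical
  let U : Ultrafilter (ℕ × Finset W) := .of atTop
  have hU : ↑U ≤ (atTop : Filter (ℕ × Finset W)) := Ultrafilter.of_le _
  let Gd : Sch (ℕ × Finset W) → Prop := fun τ => ∀ lo : W, ∃ β, Ok U lo τ β 1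
  have wt : ∀ τ, Gd τ → Most U x τ fun y => ∃ φ, Ad Fm φ ∧ ev φ y = 1 := fun τ h => by
    obtain ⟨β, h⟩ := h (Classical.arbitrary W)
    exact (wit hU G h ∅ (fun _ => β) (by simp) (by simp)).mono fun y ⟨φ, h1, _, h2⟩ => ⟨φ, h1, h2⟩
  let S : Set ℝ := {r | ∃ τ, Gd τ ∧ Most U x τ fun y => N y ≤ r}
  have S1 : b ∈ S := ⟨.step 1 fun _ => .stop, fun lo => by
    obtain ⟨w, hw⟩ := hW fun _ => lo
    exact ⟨w, .of_forall fun t => ⟨lo, hw 0, sub_self _, le_rfl⟩⟩, .of_forall fun t => by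
      change N (_ + _) ≤ b
      rw [one_smul, add_zero]
      exact (bd _).2.trans (mul_le_of_le_one_right hb.le (G.nx t))⟩
  have S2 : a ∈ lowerBounds S := fun r ⟨τ, h1, h2⟩ => by
    obtain ⟨y, ⟨φ, p1, p2⟩, h⟩ := ((wt τ h1).and h2).ex
    have := G.le p1 y
    rw [p2, abs_one] at this
    exact (le_mul_of_one_le_right ha.le this).trans ((bd y).1.trans h)
  set c := sInf S
  have c1 : a ≤ c := le_csInf ⟨b, S1⟩ S2
  have low : ∀ τ, Gd τ → ∀ ε > 0, Most U x τ fun y => c - ε < N y := fun τ h ε hε => by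
    by_contra hn
    have : c ≤ c - ε := csInf_le ⟨a, S2⟩ ⟨τ, h, (Most.not hn).mono fun y hy => not_lt.1 hy⟩
    linarith
  have e0 : ∀ n : ℕ, (0 : ℝ) < 1 / (n + 1) := fun n => by positivity
  have ex : ∀ n : ℕ, ∃ τ, Gd τ ∧ Most U x τ fun y => N y ≤ c + 1 / (n + 1) := fun n => by
    obtain ⟨r, ⟨τ, h1, h2⟩, h⟩ := exists_lt_of_csInf_lt ⟨b, S1⟩
      (show c < c + 1 / (n + 1) by linarith [e0 n])
    exact ⟨τ, h1, h2.mono fun y hy => hy.trans h.le⟩
  choose τ t1 t2 using ex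
  have key : ∀ n, ∀ ε > 0, Most U x (τ n) fun y => ∀ m, Most U x (τ m) fun z =>
      2 * c - 2 * ε < N (y + z) := fun n ε hε => by
    by_contra hn
    let g := fun y => Classical.epsilon fun m => ¬ Most U x (τ m) fun z => 2 * c - 2 * ε < N (y + z)
    have h1 : Gd (scl (1 / 2) (cat x (τ n) fun y => τ (g y))) := fun lo => by
      choose β hβ using fun m => t1 m lo
      obtain ⟨l, hl⟩ := hW β
      obtain ⟨γ, hγ⟩ := t1 n l
      refine ⟨γ, ?_⟩
      convert (hγ.cat fun y => (hβ (g y)).mono (hl _).le).scl (1 / 2)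
      norm_num
    have h2 : Most U x (scl (1 / 2) (cat x (τ n) fun y => τ (g y))) fun y => ¬ c - ε < N y :=
      Most.scl (Most.cat ((Most.not hn).mono fun y hy =>
        (Most.not (Classical.epsilon_spec (not_forall.1 hy))).mono fun z hz => by
          rw [hom, abs_of_pos one_half_pos]
          linarith))
    obtain ⟨y, h3, h4⟩ := ((low _ h1 ε hε).and h2).ex
    exact h4 h3
  obtain ⟨s, s1, s2⟩ := exists_seq_of_forall_finset_exists
    (fun p : ℕ × X × (ℕ × Finset W →₀ ℝ) => (Ad Fm p.2.2 ∧ ev p.2.2 p.2.1 = 1 ∧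
      |N p.2.1 - c| ≤ 1 / (p.1 + 1)) ∧ ∀ m, Most U x (τ m) fun z =>
        2 * c - 2 * (1 / (p.1 + 1)) < N (p.2.1 + z))
    (fun p q => p.1 < q.1 ∧ 2 * c - 2 * (1 / (p.1 + 1)) < N (p.2.1 + q.2.1) ∧ ev p.2.2 q.2.1 = 0)
    fun s hs => by
      let m := s.sup Prod.fst + 1
      obtain ⟨y, ⟨⟨⟨φ, p1, p2⟩, y1⟩, y2, y3⟩, y4⟩ := ((((wt _ (t1 m)).and (t2 m)).and
        ((low _ (t1 m) _ (e0 m)).and (key m _ (e0 m)))).and (Most.fin s fun p hp =>
          ((hs p hp).2 m).and (Most.avoid (τ m) (f := ev p.2.2) (hU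
            ((eventually_ge_atTop (p.2.2.support.sup Prod.fst + 1, ∅)).mono fun t ht => by
              rw [G.h1]
              by_contra h
              exact absurd (le_sup (f := Prod.fst) (Finsupp.mem_support_iff.2 h))
                (not_le.2 ht.1)))))).ex
      exact ⟨(m, y, φ), ⟨⟨p1, p2, abs_le.2 ⟨by linarith, by linarith⟩⟩, y3⟩, fun p hp =>
        ⟨Nat.lt_succ_of_le (le_sup (f := Prod.fst) hp), y4 p hp⟩⟩
  exact ⟨c, fun i => (s i).1, fun i => (s i).2.1, fun i => ev (s i).2.2, ha.trans_le c1,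
    fun i j h => (s2 i j h).1, fun i => ⟨G.le (s1 i).1.1, (s1 i).1.2⟩, fun i j h => (s2 i j h).2⟩

lemma main {x : ℕ × Finset W → X} {ev : (ℕ × Finset W →₀ ℝ) →ₗ[ℝ] (X →L[ℝ] ℝ)}
    (G : Good (Ad Fm) x ev) (hW : ∀ f : ℕ → W, ∃ w, ∀ n, f n < w) [Nonempty W] {N : X → ℝ}
    (tri : ∀ v w, N (v + w) ≤ N v + N w)
    (hom : ∀ (c : ℝ) (v : X), N (c • v) = |c| * N v) {a b : ℝ} (ha : 0 < a) (hb : 0 < b)
    (bd : ∀ v, a * ‖v‖ ≤ N v ∧ N v ≤ b * ‖v‖) : ∃ s : ℕ → X, (∀ n, N (s n) = 1) ∧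
      Tendsto (fun p : ℕ × ℕ => N (s p.1 + s p.2)) atTop (𝓝 2) ∧ ¬ CauchySeq s := by
  obtain ⟨c, n, y, f, c0, hn, h1, h2⟩ := seq G hW hom ha hb bd
  have e0 : ∀ i, (0 : ℝ) < 1 / (n i + 1) := fun n => by positivity
  have p : ∀ i, 0 < N (y i) := fun i => by
    have := (h1 i).1 (y i)
    rw [(h1 i).2.1, abs_one] at this
    exact lt_of_lt_of_le (by positivity) (bd _).1
  let s := fun i => (N (y i))⁻¹ • y i
  have s1 : ∀ i, N (s i) = 1 := fun i => by
    rw [hom, abs_of_pos (inv_pos.2 (p i)), inv_mul_cancel₀ (p i).ne']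
  have s2 : ∀ i, y i = N (y i) • s i := fun i => by rw [smul_inv_smul₀ (p i).ne']
  refine ⟨s, s1, ?_, fun h => ?_⟩
  · have t : Tendsto (fun i => (1 : ℝ) / (n i + 1)) atTop (𝓝 0) :=
      tendsto_one_div_add_atTop_nhds_zero_nat.comp hn.tendsto_atTop
    have t2 : Tendsto (fun p : ℕ × ℕ => 2 - 3 * ((1 : ℝ) / (n p.1 + 1) + 1 / (n p.2 + 1)) / c)
        atTop (𝓝 (2 - 3 * (0 + 0) / c)) := by
      rw [← prod_atTop_atTop_eq]
      exact ((((t.comp tendsto_fst).add (t.comp tendsto_snd)).const_mul 3).div_const c).const_sub 2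
    rw [add_zero, mul_zero, zero_div, sub_zero] at t2
    refine tendsto_of_tendsto_of_tendsto_of_le_of_le t2 tendsto_const_nhds (fun ⟨i, j⟩ => ?_)
      fun ⟨i, j⟩ => (tri _ _).trans (by rw [s1, s1]; norm_num)
    have k1 : 2 * c - 2 * (1 / (n i + 1) + 1 / (n j + 1)) ≤ N (y i + y j) := by
      rcases lt_trichotomy i j with h | rfl | h
      · linarith [(h2 i j h).1, e0 j]
      · rw [← two_smul ℝ (y i), hom, abs_two]
        linarith [neg_le_of_abs_le (h1 i).2.2, e0 i]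
      · rw [add_comm (y i)]
        linarith [(h2 j i h).1, e0 i]
    have k2 : y i + y j = c • (s i + s j) + (N (y i) - c) • s i + (N (y j) - c) • s j := by
      rw [sub_smul, sub_smul, ← s2, ← s2, smul_add]
      abel
    have k3 := (tri _ _).trans (add_le_add (tri (c • (s i + s j)) ((N (y i) - c) • s i))
      (le_refl (N ((N (y j) - c) • s j))))
    rw [← k2, hom c, hom (_ - _), hom (_ - _), s1, s1, abs_of_pos c0] at k3
    change 2 - 3 * ((1 : ℝ) / (n i + 1) + 1 / (n j + 1)) / c ≤ N (s i + s j)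
    rw [sub_le_comm, le_div_iff₀ c0]
    linarith [(h1 i).2.2, (h1 j).2.2]
  · obtain ⟨i, hi⟩ := Metric.cauchySeq_iff'.1 h (c + 1)⁻¹ (by positivity)
    have k := ((h1 i).1 (s (i + 1) - s i)).trans_lt (dist_eq_norm (s _) _ ▸ hi (i + 1) i.le_succ)
    simp only [s, map_sub, map_smul, (h1 i).2.1, (h2 i _ i.lt_succ_self).2, smul_eq_mul, mul_zero,
      mul_one, zero_sub, abs_neg, abs_of_pos (inv_pos.2 (p i))] at k
    rw [inv_lt_inv₀ (p i) (by positivity)] at k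
    have : (1 : ℝ) / (n i + 1) ≤ 1 := by
      rw [div_le_one (by positivity)]
      linarith [(Nat.cast_nonneg (n i) : (0 : ℝ) ≤ n i)]
    linarith [le_of_abs_le (h1 i).2.2]

lemma nsep {x : ℕ × Finset W → X} {ev : (ℕ × Finset W →₀ ℝ) →ₗ[ℝ] (X →L[ℝ] ℝ)}
    (G : Good (Ad Fm) x ev) (hW : ∀ f : ℕ → W, ∃ w, ∀ n, f n < w) [Nonempty W] :
    ¬ TopologicalSpace.SeparableSpace X := fun h => by
  classical
  have : Countable W := Pairwise.countable_of_isOpen_disjoint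
    (s := fun w => Metric.ball (x (0, {w})) (1 / 2))
    (fun v w h => Metric.ball_disjoint_ball (by
      have := G.le (G.sg (0, {v})) (x (0, {v}) - x (0, {w}))
      rw [map_sub, G.h1, G.h1, Finsupp.single_eq_same,
        Finsupp.single_eq_of_ne (by simpa using h.symm)] at this
      rw [dist_eq_norm]
      norm_num at this ⊢
      exact this))
    (fun _ => Metric.isOpen_ball) fun _ => Metric.nonempty_ball.2 one_half_pos
  obtain ⟨f, hf⟩ := exists_surjective_nat W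
  obtain ⟨w, hw⟩ := hW f
  obtain ⟨n, rfl⟩ := hf w
  exact (hw n).false

lemma rtr {Y : Type*} [NormedAddCommGroup Y] [NormedSpace ℝ Y] (e : Y ≃L[ℝ] X)
    (h : Function.Surjective (NormedSpace.inclusionInDoubleDual ℝ X)) :
    Function.Surjective (NormedSpace.inclusionInDoubleDual ℝ Y) := fun Φ => by
  obtain ⟨v, hv⟩ := h (Φ.comp ((ContinuousLinearMap.compL ℝ Y X ℝ).flip e))
  refine ⟨e.symm v, ContinuousLinearMap.ext fun g => ?_⟩
  refine (congrArg (fun Ψ : StrongDual ℝ (StrongDual ℝ X) => Ψ (g.comp (e.symm : X →L[ℝ] Y))) hv).trans ?_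
  exact congrArg Φ (ContinuousLinearMap.ext fun u => by simp)

end Pool.Agent.H.MP_160a79_an
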